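import Mathlib

/-!
Numerical part: the choice of the number `l` of random combinations.
-/

set_option autoImplicit false

namespace Pool.Agent.Helper13.Frege

open Filter Topology

/-- the constant factor is absorbed. -/
theorem ev_poly_le_two_pow (C0 b : ℕ) {θ : ℝ} (hθ : 0 < θ) :
    ∀ᶠ n : ℕ in atTop, (C0 : ℝ) * ((n : ℝ) + 1) ^ b ≤ (2 : ℝ) ^ ((n : ℝ) ^ θ) := by
  have hlog : 0 < Real.log 2 := Real.log_pos (by norm_num)
  have h1 : (fun x : ℝ => x ^ ((b : ℝ) / θ)) =o[atTop] fun x => Real.exp (Real.log 2 * x) :=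
    isLittleO_rpow_exp_pos_mul_atTop _ hlog
  have h2 : Tendsto (fun n : ℕ => ((n : ℝ)) ^ θ) atTop atTop :=
    (tendsto_rpow_atTop hθ).comp tendsto_natCast_atTop_atTop
  have h3 := h1.comp_tendsto h2
  have hc : (0 : ℝ) < 1 / ((C0 + 1) * 2 ^ b) := by positivity
  have h4 := h3.def hc
  filter_upwards [h4, eventually_ge_atTop 1] with n hn hn1
  simp only [Function.comp] at hn
  have hn1' : (1 : ℝ) ≤ (n : ℝ) := by exact_mod_cast hn1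
  have hn0 : (0 : ℝ) ≤ (n : ℝ) := by linarith
  rw [← Real.rpow_mul hn0, mul_div_cancel₀ _ hθ.ne', Real.rpow_natCast, Real.norm_eq_abs,
    Real.norm_eq_abs, abs_of_nonneg (by positivity), abs_of_nonneg (Real.exp_pos _).le] at hn
  have h5 : Real.exp (Real.log 2 * (n : ℝ) ^ θ) = (2 : ℝ) ^ ((n : ℝ) ^ θ) := by
    rw [Real.rpow_def_of_pos (by norm_num : (0 : ℝ) < 2)]
  rw [h5] at hn
  have h6 : ((n : ℝ) + 1) ^ b ≤ 2 ^ b * (n : ℝ) ^ b := by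
    rw [← mul_pow]
    exact pow_le_pow_left₀ (by positivity) (by linarith) _
  have h7 : (n : ℝ) ^ b * ((C0 + 1) * 2 ^ b) ≤ (2 : ℝ) ^ ((n : ℝ) ^ θ) := by
    rw [div_mul_eq_mul_div, one_mul, le_div_iff₀ (by positivity)] at hn
    exact hn
  calc (C0 : ℝ) * ((n : ℝ) + 1) ^ b ≤ (C0 : ℝ) * (2 ^ b * (n : ℝ) ^ b) := by gcongr
    _ ≤ (C0 + 1) * (2 ^ b * (n : ℝ) ^ b) := by
      have : (0 : ℝ) ≤ 2 ^ b * (n : ℝ) ^ b := by positivity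
      nlinarith
    _ = (n : ℝ) ^ b * ((C0 + 1) * 2 ^ b) := by ring
    _ ≤ _ := h7

/-- The choice of `l`: from `p ^ l ≤ s ^ a * C0 * (n + 1) ^ b` for all `l` with
`C0 * (l * p) ^ D ≤ (n / 32) ^ e` one gets `2 ^ (n ^ (e / (2 D))) ≤ s`. -/
theorem asym (p D a b C0 C1 : ℕ) (hp : 2 ≤ p) (hD : 1 ≤ D) (ha : 1 ≤ a) {e : ℝ} (he : 0 < e) :
    ∀ᶠ n : ℕ in atTop, ∃ l : ℕ, 1 ≤ l ∧
      (C0 : ℝ) * ((l : ℝ) * p) ^ D ≤ ((n : ℝ) / 32) ^ e ∧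
      ∀ s : ℕ, p ^ l ≤ s ^ a * (C1 * (n + 1) ^ b) →
        (2 : ℝ) ^ ((n : ℝ) ^ (e / (2 * D))) ≤ s := by
  have hD0 : (0 : ℝ) < D := by exact_mod_cast hD
  set θ : ℝ := e / (2 * D) with hθdef
  have hθ : 0 < θ := by positivity
  have h1 := ev_poly_le_two_pow C1 b hθ
  -- growth
  have h2 : Tendsto (fun n : ℕ => ((n : ℝ)) ^ (e / 2)) atTop atTop :=
    (tendsto_rpow_atTop (by positivity)).comp tendsto_natCast_atTop_atTop
  have h3 := h2.eventually_ge_atTop ((C0 : ℝ) * ((a + 2) * p) ^ D * 32 ^ e)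
  filter_upwards [h1, h3, eventually_ge_atTop 1] with n hn1 hn2 hn3
  have hn3' : (1 : ℝ) ≤ (n : ℝ) := by exact_mod_cast hn3
  have hn0 : (0 : ℝ) ≤ (n : ℝ) := by linarith
  have hx1 : (1 : ℝ) ≤ (n : ℝ) ^ θ := Real.one_le_rpow hn3' hθ.le
  set x : ℝ := (n : ℝ) ^ θ with hx
  have hl1 : ((a : ℝ) + 1) * x ≤ (⌈((a : ℝ) + 1) * x⌉₊ : ℝ) := Nat.le_ceil _
  have hl2 : (⌈((a : ℝ) + 1) * x⌉₊ : ℝ) ≤ (a + 2) * x := by
    have := (Nat.ceil_lt_add_one (a := ((a : ℝ) + 1) * x) (by positivity)).le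
    nlinarith
  refine ⟨⌈((a : ℝ) + 1) * x⌉₊, ?_, ?_, ?_⟩
  · rw [Nat.one_le_ceil_iff]; positivity
  · have hpp : (0 : ℝ) ≤ (p : ℝ) := Nat.cast_nonneg _
    have hxD : x ^ D = (n : ℝ) ^ (e / 2) := by
      rw [hx, ← Real.rpow_natCast, ← Real.rpow_mul hn0]
      congr 1
      rw [hθdef]
      field_simp
    calc (C0 : ℝ) * ((⌈((a : ℝ) + 1) * x⌉₊ : ℝ) * p) ^ D
        ≤ C0 * ((a + 2) * x * p) ^ D := by gcongr
      _ = (C0 * ((a + 2) * p) ^ D) * x ^ D := by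
        rw [show ((a : ℝ) + 2) * x * p = ((a + 2) * p) * x by ring, mul_pow]
        ring
      _ = (C0 * ((a + 2) * p) ^ D) * (n : ℝ) ^ (e / 2) := by rw [hxD]
      _ ≤ ((n : ℝ) / 32) ^ e := by
        rw [Real.div_rpow hn0 (by norm_num), le_div_iff₀ (by positivity)]
        have e1 : (n : ℝ) ^ e = (n : ℝ) ^ (e / 2) * (n : ℝ) ^ (e / 2) := by
          rw [← Real.rpow_add (by linarith)]
          congr 1
          ring
        rw [e1]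
        have h0 : (0 : ℝ) ≤ (n : ℝ) ^ (e / 2) := by positivity
        nlinarith
  · intro s hs
    have hs' : ((p : ℝ)) ^ (⌈((a : ℝ) + 1) * x⌉₊) ≤ (s : ℝ) ^ a * (C1 * ((n : ℝ) + 1) ^ b) := by
      exact_mod_cast hs
    have h5 : (2 : ℝ) ^ (((a : ℝ) + 1) * x) ≤ (p : ℝ) ^ (⌈((a : ℝ) + 1) * x⌉₊) := by
      calc (2 : ℝ) ^ (((a : ℝ) + 1) * x) ≤ (2 : ℝ) ^ ((⌈((a : ℝ) + 1) * x⌉₊ : ℕ) : ℝ) :=
            Real.rpow_le_rpow_of_exponent_le (by norm_num) hl1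
        _ = (2 : ℝ) ^ (⌈((a : ℝ) + 1) * x⌉₊) := Real.rpow_natCast _ _
        _ ≤ _ := pow_le_pow_left₀ (by norm_num) (by exact_mod_cast hp) _
    have h6 : (2 : ℝ) ^ (((a : ℝ) + 1) * x) ≤ (s : ℝ) ^ a * (2 : ℝ) ^ x := by
      refine (h5.trans hs').trans ?_
      gcongr
    have h7 : (2 : ℝ) ^ (((a : ℝ) + 1) * x) = ((2 : ℝ) ^ x) ^ a * (2 : ℝ) ^ x := by
      rw [← Real.rpow_natCast, ← Real.rpow_mul (by norm_num), ← Real.rpow_add (by norm_num)]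
      congr 1
      ring
    rw [h7] at h6
    have h8 : ((2 : ℝ) ^ x) ^ a ≤ (s : ℝ) ^ a := le_of_mul_le_mul_right h6 (by positivity)
    exact le_of_pow_le_pow_left₀ (by omega) (Nat.cast_nonneg _) h8

end Pool.Agent.Helper13.Frege
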