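import Pool.Agent.Helper21.AC0p.Defs

/-!
The bijective (onto functional) pigeonhole principle with `P` pigeons and `H` holes as a CNF,
its unsatisfiability for `H < P` and size bounds; tautological clauses that mention all the
variables `0, …, n - 1`.
-/

namespace Pool.Agent.Helper13.Frege

open Pool.Agent.Helper21.AC0p

/-- The variable `x_{i,k}`: pigeon `i` sits in hole `k` (there are `H` holes). -/
def vr (H i k : ℕ) : ℕ := i * H + k

/-- Pigeon `i` sits in some hole. -/
def pigeonAx (H i : ℕ) : Clause := (List.range H).map fun k => (vr H i k, true)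

/-- Hole `k` is occupied by some pigeon. -/
def holeAx (P H k : ℕ) : Clause := (List.range P).map fun i => (vr H i k, true)

/-- Pigeon `i` does not sit in both holes `k` and `k'`. -/
def funAx (H i k k' : ℕ) : Clause := [(vr H i k, false), (vr H i k', false)]

/-- Pigeons `i` and `i'` do not both sit in hole `k`. -/
def injAx (H k i i' : ℕ) : Clause := [(vr H i k, false), (vr H i' k, false)]

/-- The bijective pigeonhole principle for `P` pigeons and `H` holes. -/
def bphp (P H : ℕ) : List Clause :=
  (List.range P).map (pigeonAx H) ++ (List.range H).map (holeAx P H) ++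
  ((List.range P).flatMap fun i => (List.range H).flatMap fun k =>
    (List.range k).map fun k' => funAx H i k k') ++
  ((List.range H).flatMap fun k => (List.range P).flatMap fun i =>
    (List.range i).map fun i' => injAx H k i i')

/-- The tautological clauses `x_j ∨ ¬ x_j`, `j < n`. -/
def taut (n : ℕ) : List Clause := (List.range n).map fun j => [(j, true), (j, false)]

theorem mem_bphp {P H : ℕ} {C : Clause} : C ∈ bphp P H ↔
    (∃ i < P, C = pigeonAx H i) ∨ (∃ k < H, C = holeAx P H k) ∨
    (∃ i < P, ∃ k < H, ∃ k' < k, C = funAx H i k k') ∨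
    (∃ k < H, ∃ i < P, ∃ i' < i, C = injAx H k i i') := by
  simp only [bphp, List.mem_append, List.mem_map, List.mem_flatMap, List.mem_range]
  constructor
  · rintro (((⟨i, hi, rfl⟩ | ⟨k, hk, rfl⟩) | ⟨i, hi, k, hk, k', hk', rfl⟩) |
      ⟨k, hk, i, hi, i', hi', rfl⟩)
    · exact Or.inl ⟨i, hi, rfl⟩
    · exact Or.inr (Or.inl ⟨k, hk, rfl⟩)
    · exact Or.inr (Or.inr (Or.inl ⟨i, hi, k, hk, k', hk', rfl⟩))
    · exact Or.inr (Or.inr (Or.inr ⟨k, hk, i, hi, i', hi', rfl⟩))
  · rintro (⟨i, hi, rfl⟩ | ⟨k, hk, rfl⟩ | ⟨i, hi, k, hk, k', hk', rfl⟩ |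
      ⟨k, hk, i, hi, i', hi', rfl⟩)
    · exact Or.inl (Or.inl (Or.inl ⟨i, hi, rfl⟩))
    · exact Or.inl (Or.inl (Or.inr ⟨k, hk, rfl⟩))
    · exact Or.inl (Or.inr ⟨i, hi, k, hk, k', hk', rfl⟩)
    · exact Or.inr ⟨k, hk, i, hi, i', hi', rfl⟩

theorem mem_taut {n : ℕ} {C : Clause} : C ∈ taut n ↔ ∃ j < n, C = [(j, true), (j, false)] := by
  simp only [taut, List.mem_map, List.mem_range]
  constructor
  · rintro ⟨j, hj, rfl⟩; exact ⟨j, hj, rfl⟩
  · rintro ⟨j, hj, rfl⟩; exact ⟨j, hj, rfl⟩

theorem vr_lt {P H i k : ℕ} (hi : i < P) (hk : k < H) : vr H i k < P * H := by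
  unfold vr
  calc i * H + k < i * H + H := by omega
    _ = (i + 1) * H := by ring
    _ ≤ P * H := Nat.mul_le_mul_right _ hi

/-- every variable of `bphp P H` is `< P * H`. -/
theorem bphp_var {P H : ℕ} {C : Clause} (hC : C ∈ bphp P H) {l : Lit} (hl : l ∈ C) :
    l.1 < P * H := by
  rcases mem_bphp.1 hC with ⟨i, hi, rfl⟩ | ⟨k, hk, rfl⟩ | ⟨i, hi, k, hk, k', hk', rfl⟩ |
      ⟨k, hk, i, hi, i', hi', rfl⟩
  · simp only [pigeonAx, List.mem_map, List.mem_range] at hl
    obtain ⟨k, hk, rfl⟩ := hl
    exact vr_lt hi hk
  · simp only [holeAx, List.mem_map, List.mem_range] at hl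
    obtain ⟨i, hi, rfl⟩ := hl
    exact vr_lt hi hk
  · simp only [funAx, List.mem_cons, List.not_mem_nil, or_false] at hl
    rcases hl with rfl | rfl
    · exact vr_lt hi hk
    · exact vr_lt hi (hk'.trans hk)
  · simp only [injAx, List.mem_cons, List.not_mem_nil, or_false] at hl
    rcases hl with rfl | rfl
    · exact vr_lt hi hk
    · exact vr_lt (hi'.trans hi) hk

theorem unsat_bphp {P H : ℕ} (h : H < P) : Unsat (bphp P H) := by
  intro v
  by_contra hcon
  push Not at hcon
  -- every pigeon sits in a hole
  have h1 : ∀ i : Fin P, ∃ k : Fin H, v (vr H i k) = true := by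
    intro i
    obtain ⟨l, hl, hv⟩ := hcon (pigeonAx H i) (mem_bphp.2 (Or.inl ⟨i, i.2, rfl⟩))
    simp only [pigeonAx, List.mem_map, List.mem_range] at hl
    obtain ⟨k, hk, rfl⟩ := hl
    exact ⟨⟨k, hk⟩, hv⟩
  choose f hf using h1
  have hinj : Function.Injective f := by
    have key : ∀ i i' : Fin P, i' < i → f i ≠ f i' := by
      intro i i' hlt he
      obtain ⟨l, hl, hv⟩ := hcon (injAx H (f i) i i')
        (mem_bphp.2 (Or.inr (Or.inr (Or.inr ⟨f i, (f i).2, i, i.2, i', hlt, rfl⟩))))
      simp only [injAx, List.mem_cons, List.not_mem_nil, or_false] at hl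
      rcases hl with rfl | rfl
      · have := hf i
        simp only at hv
        rw [hv] at this
        exact absurd this (by decide)
      · have := hf i'
        rw [← he] at this
        simp only at hv
        rw [hv] at this
        exact absurd this (by decide)
    intro i i' he
    rcases lt_trichotomy i i' with hlt | heq | hgt
    · exact absurd he.symm (key i' i hlt)
    · exact heq
    · exact absurd he (key i i' hgt)
  have := Fintype.card_le_of_injective f hinj
  simp only [Fintype.card_fin] at this
  omega

theorem unsat_append {F : List Clause} (hF : Unsat F) (G : List Clause) : Unsat (F ++ G) := by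
  intro v
  obtain ⟨C, hC, h⟩ := hF v
  exact ⟨C, List.mem_append_left _ hC, h⟩

/-- The size of a CNF: every clause counts its number of literals plus one. -/
def cnfSize (F : List Clause) : ℕ := (F.map fun C => C.length + 1).sum

theorem cnfSize_append (F G : List Clause) : cnfSize (F ++ G) = cnfSize F + cnfSize G := by
  simp [cnfSize]

theorem cnfSize_flatMap_le {ι : Type*} (L : List ι) (f : ι → List Clause) (c : ℕ)
    (h : ∀ i ∈ L, cnfSize (f i) ≤ c) : cnfSize (L.flatMap f) ≤ L.length * c := by
  induction L with
  | nil => simp [cnfSize]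
  | cons a L ih =>
    rw [List.flatMap_cons, cnfSize_append, List.length_cons, Nat.add_mul, one_mul, add_comm]
    exact Nat.add_le_add (ih fun i hi => h i (List.mem_cons_of_mem _ hi))
      (h a List.mem_cons_self)

theorem cnfSize_map_le {ι : Type*} (L : List ι) (f : ι → Clause) (c : ℕ)
    (h : ∀ i ∈ L, (f i).length + 1 ≤ c) : cnfSize (L.map f) ≤ L.length * c := by
  induction L with
  | nil => simp [cnfSize]
  | cons a L ih =>
    have : cnfSize ((a :: L).map f) = ((f a).length + 1) + cnfSize (L.map f) := by
      simp [cnfSize]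
    rw [this, List.length_cons, Nat.add_mul, one_mul, add_comm]
    exact Nat.add_le_add (ih fun i hi => h i (List.mem_cons_of_mem _ hi))
      (h a List.mem_cons_self)

theorem cnfSize_bphp (P H : ℕ) :
    cnfSize (bphp P H) ≤ P * (H + 1) + H * (P + 1) + P * (H * (H * 3)) + H * (P * (P * 3)) := by
  unfold bphp
  rw [cnfSize_append, cnfSize_append, cnfSize_append]
  have h1 : cnfSize ((List.range P).map (pigeonAx H)) ≤ P * (H + 1) := by
    have := cnfSize_map_le (List.range P) (pigeonAx H) (H + 1)
      (fun i _ => by simp [pigeonAx])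
    simpa using this
  have h2 : cnfSize ((List.range H).map (holeAx P H)) ≤ H * (P + 1) := by
    have := cnfSize_map_le (List.range H) (holeAx P H) (P + 1)
      (fun i _ => by simp [holeAx])
    simpa using this
  have h3 : cnfSize ((List.range P).flatMap fun i => (List.range H).flatMap fun k =>
      (List.range k).map fun k' => funAx H i k k') ≤ P * (H * (H * 3)) := by
    have := cnfSize_flatMap_le (List.range P) (fun i => (List.range H).flatMap fun k =>
      (List.range k).map fun k' => funAx H i k k') (H * (H * 3)) (by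
        intro i _
        have := cnfSize_flatMap_le (List.range H) (fun k =>
          (List.range k).map fun k' => funAx H i k k') (H * 3) (by
            intro k hk
            have := cnfSize_map_le (List.range k) (fun k' => funAx H i k k') 3
              (fun _ _ => by simp [funAx])
            rw [List.length_range] at this
            exact this.trans (Nat.mul_le_mul_right _ (List.mem_range.1 hk).le))
        simpa using this)
    simpa using this
  have h4 : cnfSize ((List.range H).flatMap fun k => (List.range P).flatMap fun i =>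
      (List.range i).map fun i' => injAx H k i i') ≤ H * (P * (P * 3)) := by
    have := cnfSize_flatMap_le (List.range H) (fun k => (List.range P).flatMap fun i =>
      (List.range i).map fun i' => injAx H k i i') (P * (P * 3)) (by
        intro k _
        have := cnfSize_flatMap_le (List.range P) (fun i =>
          (List.range i).map fun i' => injAx H k i i') (P * 3) (by
            intro i hi
            have := cnfSize_map_le (List.range i) (fun i' => injAx H k i i') 3
              (fun _ _ => by simp [injAx])
            rw [List.length_range] at this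
            exact this.trans (Nat.mul_le_mul_right _ (List.mem_range.1 hi).le))
        simpa using this)
    simpa using this
  omega

theorem cnfSize_taut (n : ℕ) : cnfSize (taut n) = 3 * n := by
  unfold taut cnfSize
  rw [List.map_map]
  have : ((fun C : Clause => C.length + 1) ∘ fun j : ℕ => ([(j, true), (j, false)] : Clause)) =
      fun _ => 3 := by
    funext j; simp
  rw [this]
  simp [mul_comm]

/-- The CNF in exactly `n` variables built from `bphp P H`. -/
def cnf (P H n : ℕ) : List Clause := bphp P H ++ taut n

theorem cnf_unsat {P H : ℕ} (n : ℕ) (h : H < P) : Unsat (cnf P H n) :=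
  unsat_append (unsat_bphp h) _

theorem cnf_vars {P H n : ℕ} (h : P * H ≤ n) (j : ℕ) :
    (∃ C ∈ cnf P H n, ∃ l ∈ C, l.1 = j) ↔ j < n := by
  constructor
  · rintro ⟨C, hC, l, hl, rfl⟩
    rcases List.mem_append.1 hC with hC | hC
    · exact (bphp_var hC hl).trans_le h
    · obtain ⟨j, hj, rfl⟩ := mem_taut.1 hC
      simp only [List.mem_cons, List.not_mem_nil, or_false] at hl
      rcases hl with rfl | rfl <;> exact hj
  · intro hj
    exact ⟨[(j, true), (j, false)], List.mem_append_right _ (mem_taut.2 ⟨j, hj, rfl⟩),
      (j, true), by simp, rfl⟩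

theorem cnf_size {P H n : ℕ} (hP : 0 < P) (hH : 0 < H) (h : P * H ≤ n) :
    cnfSize (cnf P H n) ≤ (n + 2) ^ 3 := by
  unfold cnf
  rw [cnfSize_append, cnfSize_taut]
  refine (Nat.add_le_add_right (cnfSize_bphp P H) _).trans ?_
  have hPn : P ≤ n := (Nat.le_mul_of_pos_right P hH).trans h
  have hHn : H ≤ n := (Nat.le_mul_of_pos_left H hP).trans h
  have e1 : P * (H * (H * 3)) ≤ 3 * (n * n) := by
    calc P * (H * (H * 3)) = 3 * ((P * H) * H) := by ring
      _ ≤ 3 * (n * n) := by gcongr
  have e2 : H * (P * (P * 3)) ≤ 3 * (n * n) := by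
    calc H * (P * (P * 3)) = 3 * ((P * H) * P) := by ring
      _ ≤ 3 * (n * n) := by gcongr
  have e3 : P * (H + 1) + H * (P + 1) ≤ 4 * n := by
    calc P * (H + 1) + H * (P + 1) = 2 * (P * H) + P + H := by ring
      _ ≤ 2 * n + n + n := by gcongr
      _ = 4 * n := by ring
  have : 4 * n + 3 * (n * n) + 3 * (n * n) + 3 * n ≤ (n + 2) ^ 3 := by
    ring_nf
    nlinarith [Nat.zero_le n, sq_nonneg n, Nat.zero_le (n^3)]
  omega

end Pool.Agent.Helper13.Frege
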