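import Pool.Agent.Helper13.Frege.WinInst
import Pool.Agent.Helper13.Frege.Asym

/-!
The final theorem from the window theorem (combinatorics) and the lower bound theorem for
window modules (proof complexity).
-/

set_option autoImplicit false

namespace Pool.Agent.Helper13.Frege

open Pool.Agent.Helper81.FZ Pool.Agent.Helper21.AC0p Pool.Agent.Frege Filter

/-- the combinatorial input. -/
def WindowThm (p : ℕ) [Fact p.Prime] : Prop :=
  ∃ ε : ℝ, 0 < ε ∧ ∃ M₀ : ℕ, ∀ M : ℕ, M₀ ≤ M → ∃ N k t : ℕ,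
      M ≤ N ∧ N ≤ 2 * M ∧ 1 ≤ k ∧ t + (2 ^ k - 1) ≤ N ∧ p ^ k ≤ N ∧
      (M : ℝ) ^ ε ≤ ((2 ^ k - 1 : ℕ) : ℝ) ∧
      0 < Module.finrank (ZMod p) (Submodule.map
          (trunc (ZMod p) (Fin (N + p ^ k)) (Fin N) t)
          (Co (ZMod p) (Fin (N + p ^ k)) (Fin N) (t + (2 ^ k - 1)))) ∧
      ∀ j ≤ 2 ^ k - 1, Module.finrank (ZMod p) (Co (ZMod p) (Fin (N + p ^ k)) (Fin N) (t + j)) ≤
        6 * N * Module.finrank (ZMod p) (Submodule.map
          (trunc (ZMod p) (Fin (N + p ^ k)) (Fin N) t)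
          (Co (ZMod p) (Fin (N + p ^ k)) (Fin N) (t + (2 ^ k - 1))))

/-- the proof complexity input. -/
def LowerThm (p : ℕ) : Prop :=
  ∀ R : List Rule, (∀ r ∈ R, r.Sound p) → ∀ m0 : ℕ, ∃ C0 : ℕ, ∀ d l w : ℕ, 1 ≤ l →
    C0 * (l * p) ^ (d + 2) ≤ w →
    ∀ (F : List Clause) (K 𝒞 𝓜 : Type) [Field K] [CharP K p] [CommRing 𝒞] [Algebra K 𝒞]
      [AddCommGroup 𝓜] [Module K 𝓜] [Module 𝒞 𝓜] [IsScalarTower K 𝒞 𝓜]
      (W : Win F m0 K 𝒞 𝓜) (π : List Fm), Refutation R F π → (∀ A ∈ π, A.depth ≤ d) →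
      ∀ H : ℕ, (∀ j ≤ w, Module.finrank K (W.G j) ≤ H) →
        p ^ l * Module.finrank K ((W.G 0).map (Algebra.lsmul K K 𝓜 (W.t ^ w))) ≤
          psize π ^ 2 * C0 * H

theorem one_add_le_cube (n : ℕ) : 1 + 3 * n ≤ (n + 2) ^ 3 := by
  ring_nf
  nlinarith [Nat.zero_le n, Nat.zero_le (n ^ 3), Nat.zero_le (n ^ 2)]

theorem main_of (p : ℕ) (hp : p.Prime) (hM : haveI := Fact.mk hp; WindowThm p)
    (hW : LowerThm p) :
    ∃ F : ℕ → List Clause,
      (∀ n, Unsat (F n) ∧ (∀ j, (∃ C ∈ F n, ∃ l ∈ C, l.1 = j) ↔ j < n) ∧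
        cnfSize (F n) ≤ (n + 2) ^ 3) ∧
      ∀ d : ℕ, ∃ ε : ℝ, 0 < ε ∧ ∀ R : List Rule, (∀ r ∈ R, r.Sound p) →
        ∃ n₀ : ℕ, ∀ n, n₀ ≤ n → ∀ π : List Fm, Refutation R (F n) π →
          (∀ A ∈ π, A.depth ≤ d) → (2 : ℝ) ^ ((n : ℝ) ^ ε) ≤ psize π := by
  classical
  haveI : Fact p.Prime := ⟨hp⟩
  obtain ⟨e, he, M₀, hM⟩ := hM
  choose! N k t hM using hM
  let m : ℕ → ℕ := fun n => Nat.sqrt (n / 8)
  let F : ℕ → List Clause := fun n =>
    if M₀ ≤ m n ∧ 1 ≤ m n then cnf (N (m n) + p ^ k (m n)) (N (m n)) n else [] :: taut n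
  -- the number of variables
  have hPH : ∀ n, M₀ ≤ m n → (N (m n) + p ^ k (m n)) * N (m n) ≤ n := by
    intro n hn
    obtain ⟨h1, h2, h3, h4, h5, h6, h7, h8⟩ := hM (m n) hn
    have h9 : m n * m n ≤ n / 8 := Nat.sqrt_le _
    calc (N (m n) + p ^ k (m n)) * N (m n) ≤ (N (m n) + N (m n)) * N (m n) := by gcongr
      _ ≤ (2 * m n + 2 * m n) * (2 * m n) := by gcongr
      _ = 8 * (m n * m n) := by ring
      _ ≤ 8 * (n / 8) := by gcongr
      _ ≤ n := Nat.mul_div_le n 8
  refine ⟨F, fun n => ?_, fun d => ?_⟩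
  · -- the formulas
    by_cases hn : M₀ ≤ m n ∧ 1 ≤ m n
    · have hF : F n = cnf (N (m n) + p ^ k (m n)) (N (m n)) n := if_pos hn
      rw [hF]
      have hpk : 0 < p ^ k (m n) := pow_pos hp.pos _
      have hNm := (hM (m n) hn.1).1
      exact ⟨cnf_unsat n (by omega), cnf_vars (hPH n hn.1),
        cnf_size (by omega) (by omega) (hPH n hn.1)⟩
    · have hF : F n = [] :: taut n := if_neg hn
      rw [hF]
      refine ⟨?_, ?_, ?_⟩
      · intro v
        exact ⟨[], List.mem_cons_self, fun l hl => absurd hl List.not_mem_nil⟩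
      · intro j
        constructor
        · rintro ⟨C, hC, l, hl, rfl⟩
          rcases List.mem_cons.1 hC with rfl | hC
          · exact absurd hl List.not_mem_nil
          · obtain ⟨j, hj, rfl⟩ := mem_taut.1 hC
            simp only [List.mem_cons, List.not_mem_nil, or_false] at hl
            rcases hl with rfl | rfl <;> exact hj
        · intro hj
          exact ⟨[(j, true), (j, false)], List.mem_cons_of_mem _ (mem_taut.2 ⟨j, hj, rfl⟩),
            (j, true), by simp, rfl⟩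
      · have : cnfSize ([] :: taut n) = 1 + cnfSize (taut n) := by simp [cnfSize]
        rw [this, cnfSize_taut]
        exact one_add_le_cube n
  · -- the lower bound
    have he2 : 0 < e / 2 := by positivity
    refine ⟨e / 2 / (2 * ((d + 2 : ℕ) : ℝ)), by positivity, fun R hR => ?_⟩
    obtain ⟨C0, hC0⟩ := hW R hR 1
    have has := asym p (d + 2) 2 1 C0 (C0 * 6) hp.two_le (by omega) (by norm_num) he2
    have hm : Tendsto m atTop atTop := by
      refine tendsto_atTop.2 fun b => ?_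
      filter_upwards [eventually_ge_atTop (8 * (b * b))] with n hn
      show b ≤ Nat.sqrt (n / 8)
      rw [Nat.le_sqrt]
      omega
    obtain ⟨n₀, hn₀⟩ := eventually_atTop.1 (has.and ((hm.eventually_ge_atTop M₀).and
      (hm.eventually_ge_atTop 1)))
    refine ⟨n₀, fun n hn π hπ hd => ?_⟩
    obtain ⟨⟨l, hl1, hl2, hl3⟩, hm0, hm1⟩ := hn₀ n hn
    obtain ⟨h1, h2, h3, h4, h5, h6, h7, h8⟩ := hM (m n) hm0
    have hF : F n = cnf (N (m n) + p ^ k (m n)) (N (m n)) n := if_pos ⟨hm0, hm1⟩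
    rw [hF] at hπ
    apply hl3
    -- the window length
    set w : ℕ := 2 ^ k (m n) - 1 with hw
    have hmn : (n : ℝ) / 32 ≤ (m n : ℝ) ^ 2 := by
      have h9 : n / 8 < (m n + 1) * (m n + 1) := Nat.lt_succ_sqrt (n / 8)
      have h10 : n < 8 * ((m n + 1) * (m n + 1)) := by omega
      have h11 : n ≤ 32 * (m n * m n) := by nlinarith
      have h12 : (n : ℝ) ≤ 32 * ((m n : ℝ) * m n) := by exact_mod_cast h11
      rw [div_le_iff₀ (by norm_num)]
      nlinarith
    have hlw : C0 * (l * p) ^ (d + 2) ≤ w := by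
      have h9 : ((n : ℝ) / 32) ^ (e / 2) ≤ (w : ℝ) := by
        refine le_trans ?_ h6
        calc ((n : ℝ) / 32) ^ (e / 2) ≤ ((m n : ℝ) ^ 2) ^ (e / 2) :=
              Real.rpow_le_rpow (by positivity) hmn he2.le
          _ = (m n : ℝ) ^ e := by
              rw [← Real.rpow_natCast, ← Real.rpow_mul (Nat.cast_nonneg _)]
              congr 1
              push_cast
              ring
      have h10 := hl2.trans h9
      exact_mod_cast h10
    -- apply the lower bound theorem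
    set S : ℕ := t (m n) + w with hS
    have key := hC0 d l w hl1 hlw (cnf (N (m n) + p ^ k (m n)) (N (m n)) n) (ZMod p) _ _
      (win (ZMod p) (N (m n) + p ^ k (m n)) (N (m n)) S n) π hπ hd
      (6 * N (m n) * Module.finrank (ZMod p) (Submodule.map
          (trunc (ZMod p) (Fin (N (m n) + p ^ k (m n))) (Fin (N (m n))) (t (m n)))
          (Co (ZMod p) (Fin (N (m n) + p ^ k (m n))) (Fin (N (m n))) S))) ?_
    · have hlow : Module.finrank (ZMod p) (((win (ZMod p) (N (m n) + p ^ k (m n)) (N (m n)) S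
          n).G 0).map (Algebra.lsmul (ZMod p) (ZMod p) _
            ((win (ZMod p) (N (m n) + p ^ k (m n)) (N (m n)) S n).t ^ w))) =
          Module.finrank (ZMod p) (Submodule.map
          (trunc (ZMod p) (Fin (N (m n) + p ^ k (m n))) (Fin (N (m n))) (t (m n)))
          (Co (ZMod p) (Fin (N (m n) + p ^ k (m n))) (Fin (N (m n))) S)) := by
        have := finrank_map_pow (K := ZMod p) (P := N (m n) + p ^ k (m n)) (H := N (m n))
          (S := S) (w := w) (by omega)
          (Algebra.lsmul (ZMod p) (ZMod p) _ ((tt (ZMod p) _ _ _) ^ w)) (fun f => rfl)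
        rw [show S - w = t (m n) by omega] at this
        exact this
      rw [hlow] at key
      have hN : N (m n) ≤ n := by
        have h9 := hPH n hm0
        have h10 : 1 ≤ N (m n) := hm1.trans h1
        have h11 : 1 ≤ N (m n) + p ^ k (m n) := by omega
        calc N (m n) = 1 * N (m n) := (one_mul _).symm
          _ ≤ (N (m n) + p ^ k (m n)) * N (m n) := by gcongr
          _ ≤ n := h9
      generalize Module.finrank (ZMod p) (Submodule.map
          (trunc (ZMod p) (Fin (N (m n) + p ^ k (m n))) (Fin (N (m n))) (t (m n)))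
          (Co (ZMod p) (Fin (N (m n) + p ^ k (m n))) (Fin (N (m n))) S)) = L at key h7
      have h10 : p ^ l * L ≤ psize π ^ 2 * (C0 * 6 * (n + 1) ^ 1) * L := by
        calc p ^ l * L ≤ psize π ^ 2 * C0 * (6 * N (m n) * L) := key
          _ = psize π ^ 2 * (C0 * 6 * N (m n)) * L := by ring
          _ ≤ psize π ^ 2 * (C0 * 6 * (n + 1) ^ 1) * L := by
            have : N (m n) ≤ (n + 1) ^ 1 := by rw [pow_one]; omega
            gcongr
      exact Nat.le_of_mul_le_mul_right h10 h7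
    · intro j hj
      show Module.finrank (ZMod p) (GG (ZMod p) (N (m n) + p ^ k (m n)) (N (m n)) S j) ≤ _
      rw [finrank_GG (by omega)]
      have h9 := h8 (w - j) (by omega)
      rw [show t (m n) + (w - j) = S - j by omega] at h9
      exact h9

end Pool.Agent.Helper13.Frege
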