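import Pool.Agent.Helper81.FZ.Window
import Pool.Agent.Frege.WindowLower
import Pool.Agent.Helper13.Frege.Main

/-!
Exponential lower bounds for refutations of bounded depth with unbounded fan-in disjunctions,
negations and `MOD_p` connectives: the final theorem.
-/

set_option autoImplicit false

namespace Pool.Agent.Helper13.Frege

open Pool.Agent.Helper21.AC0p

theorem windowThm (p : ℕ) [Fact p.Prime] : WindowThm p :=
  Pool.Agent.Helper81.FZ.window p

theorem lowerThm (p : ℕ) (hp : p.Prime) : LowerThm p := by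
  intro R hR m0
  obtain ⟨C0, h⟩ := Pool.Agent.Frege.window_lower p hp R hR m0
  exact ⟨C0, fun d l w hl hw F K 𝒞 𝓜 _ _ _ _ _ _ _ _ W π hπ hd H hH =>
    h d l w hl hw F K 𝒞 𝓜 W π hπ hd H hH⟩

/-- For every prime `p` there are unsatisfiable CNFs `F n` in exactly `n` variables, of size at
most `(n + 2) ^ 3`, such that for every depth `d` there is `ε > 0` such that for every finite
list of sound schematic rules all refutations of `F n` with lines of depth at most `d` have
size at least `2 ^ (n ^ ε)` for all large `n`. -/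
theorem main (p : ℕ) (hp : p.Prime) :
    ∃ F : ℕ → List Clause,
      (∀ n, Unsat (F n) ∧ (∀ j, (∃ C ∈ F n, ∃ l ∈ C, l.1 = j) ↔ j < n) ∧
        ((F n).map fun C => C.length + 1).sum ≤ (n + 2) ^ 3) ∧
      ∀ d : ℕ, ∃ ε : ℝ, 0 < ε ∧ ∀ R : List Rule, (∀ r ∈ R, r.Sound p) →
        ∃ n₀ : ℕ, ∀ n, n₀ ≤ n → ∀ π : List Fm, Refutation R (F n) π →
          (∀ A ∈ π, A.depth ≤ d) → (2 : ℝ) ^ ((n : ℝ) ^ ε) ≤ psize π :=
  main_of p hp (haveI := Fact.mk hp; windowThm p) (lowerThm p hp)

end Pool.Agent.Helper13.Frege
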