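import Pool.Agent.Helper13.Frege.Ops
import Pool.Agent.Helper13.Frege.Encode
import Pool.Agent.Frege.Window

/-!
The window module of the bijective pigeonhole principle: graded pieces are the spaces of
consistent functions of decreasing degree.
-/

set_option autoImplicit false

namespace Pool.Agent.Helper13.Frege

open Pool.Agent.Helper81.FZ Pool.Agent.Helper21.AC0p Pool.Agent.Frege Finset

noncomputable section

variable (K : Type) [Field K] (P H S : ℕ)

/-- the ambient space -/
abbrev VV : Type := Finset (Fin P × Fin H) → K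

/-- the graded piece of degree `j`: consistent functions of degree `S - j`. -/
def lev (j : ℕ) : Submodule K (VV K P H) := if j ≤ S then Co K (Fin P) (Fin H) (S - j) else ⊥

theorem lev_of_le {K : Type} [Field K] {P H S j : ℕ} (h : j ≤ S) :
    lev K P H S j = Co K (Fin P) (Fin H) (S - j) := if_pos h

/-- an operator of degree one, given by its level maps. -/
structure LOp where
  /-- level maps -/
  map : ℕ → (VV K P H →ₗ[K] VV K P H)
  mem : ∀ j, ∀ F ∈ lev K P H S j, map j F ∈ lev K P H S (j + 1)

/-- the total space -/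
def MM : Type := ∀ j, lev K P H S j

instance : AddCommGroup (MM K P H S) := inferInstanceAs (AddCommGroup (∀ j, lev K P H S j))

instance : Module K (MM K P H S) := inferInstanceAs (Module K (∀ j, lev K P H S j))

variable {K P H S}

@[ext] theorem MM.ext {f g : MM K P H S} (h : ∀ j, f j = g j) : f = g := funext h

@[simp] theorem MM.add_apply (f g : MM K P H S) (j : ℕ) : (f + g) j = f j + g j := rfl

@[simp] theorem MM.smul_apply (c : K) (f : MM K P H S) (j : ℕ) : (c • f) j = c • f j := rfl

@[simp] theorem MM.zero_apply (j : ℕ) : (0 : MM K P H S) j = 0 := rfl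

/-- the operator on the total space, as a function. -/
def LOp.fn (L : LOp K P H S) (f : MM K P H S) : MM K P H S := fun j => match j with
  | 0 => 0
  | j + 1 => ⟨L.map j (f j), L.mem j _ (f j).2⟩

theorem LOp.fn_zero (L : LOp K P H S) (f : MM K P H S) : L.fn f 0 = 0 := rfl

theorem LOp.fn_succ (L : LOp K P H S) (f : MM K P H S) (j : ℕ) :
    ((L.fn f (j + 1) : lev K P H S (j + 1)) : VV K P H) = L.map j (f j) := rfl

/-- the operator on the total space. -/
def LOp.op (L : LOp K P H S) : MM K P H S →ₗ[K] MM K P H S where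
  toFun := L.fn
  map_add' f g := by
    apply MM.ext
    intro j
    cases j with
    | zero => rw [MM.add_apply, LOp.fn_zero, LOp.fn_zero, LOp.fn_zero, add_zero]
    | succ j =>
      apply Subtype.ext
      rw [MM.add_apply, Submodule.coe_add, LOp.fn_succ, LOp.fn_succ, LOp.fn_succ, MM.add_apply,
        Submodule.coe_add, map_add]
  map_smul' c f := by
    apply MM.ext
    intro j
    cases j with
    | zero => rw [RingHom.id_apply, MM.smul_apply, LOp.fn_zero, LOp.fn_zero, smul_zero]
    | succ j =>
      apply Subtype.ext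
      rw [RingHom.id_apply, MM.smul_apply, Submodule.coe_smul, LOp.fn_succ, LOp.fn_succ,
        MM.smul_apply, Submodule.coe_smul, map_smul]

theorem LOp.op_zero (L : LOp K P H S) (f : MM K P H S) : L.op f 0 = 0 := rfl

theorem LOp.op_succ (L : LOp K P H S) (f : MM K P H S) (j : ℕ) :
    ((L.op f (j + 1) : lev K P H S (j + 1)) : VV K P H) = L.map j (f j) := rfl

theorem LOp.mul_eq {L1 L2 L3 L4 : LOp K P H S}
    (h : ∀ j, ∀ F ∈ lev K P H S j, L1.map (j + 1) (L2.map j F) = L3.map (j + 1) (L4.map j F)) :
    L1.op * L2.op = L3.op * L4.op := by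
  apply LinearMap.ext
  intro f
  apply MM.ext
  intro j
  rw [Module.End.mul_apply, Module.End.mul_apply]
  cases j with
  | zero => rfl
  | succ j =>
    apply Subtype.ext
    rw [LOp.op_succ, LOp.op_succ]
    cases j with
    | zero => rw [LOp.op_zero, LOp.op_zero, Submodule.coe_zero, map_zero, map_zero]
    | succ j => rw [LOp.op_succ, LOp.op_succ, h j _ (f j).2]

variable (K P H S)

/-- truncation -/
def TT : LOp K P H S where
  map j := if j < S then trunc K (Fin P) (Fin H) (S - j - 1) else 0
  mem j F hF := by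
    unfold lev at hF ⊢
    by_cases h : j < S
    · rw [if_pos h.le] at hF
      rw [if_pos h, if_pos (Nat.succ_le_of_lt h)]
      have : S - (j + 1) = S - j - 1 := by omega
      rw [this]
      exact trunc_mem' K (by omega) hF
    · rw [if_neg h, if_neg (by omega)]
      simp

/-- the operator of a pair -/
def XX (e : Fin P × Fin H) : LOp K P H S where
  map j := if j < S then xop K e (S - j - 1) else 0
  mem j F hF := by
    unfold lev at hF ⊢
    by_cases h : j < S
    · rw [if_pos h.le] at hF
      rw [if_pos h, if_pos (Nat.succ_le_of_lt h)]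
      have h1 : S - (j + 1) = S - j - 1 := by omega
      have h2 : S - j = (S - j - 1) + 1 := by omega
      rw [h1]
      rw [h2] at hF
      exact xop_mem K e hF
    · rw [if_neg h, if_neg (by omega)]
      simp

/-- the generators of the algebra -/
def gens : Set (Module.End K (MM K P H S)) :=
  insert (TT K P H S).op (Set.range fun e => (XX K P H S e).op)

theorem XX_comm (e e' : Fin P × Fin H) :
    (XX K P H S e).op * (XX K P H S e').op = (XX K P H S e').op * (XX K P H S e).op := by
  apply LOp.mul_eq
  intro j F _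
  show (if j + 1 < S then xop K e (S - (j + 1) - 1) else 0)
      ((if j < S then xop K e' (S - j - 1) else 0) F) =
    (if j + 1 < S then xop K e' (S - (j + 1) - 1) else 0)
      ((if j < S then xop K e (S - j - 1) else 0) F)
  by_cases h : j + 1 < S
  · have h1 : S - j - 1 = (S - (j + 1) - 1) + 1 := by omega
    rw [if_pos h, if_pos h, if_pos (by omega), if_pos (by omega), h1, xop_xop_comm]
  · rw [if_neg h, if_neg h]; rfl

theorem XX_TT (e : Fin P × Fin H) :
    (XX K P H S e).op * (TT K P H S).op = (TT K P H S).op * (XX K P H S e).op := by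
  apply LOp.mul_eq
  intro j F _
  show (if j + 1 < S then xop K e (S - (j + 1) - 1) else 0)
      ((if j < S then trunc K (Fin P) (Fin H) (S - j - 1) else 0) F) =
    (if j + 1 < S then trunc K (Fin P) (Fin H) (S - (j + 1) - 1) else 0)
      ((if j < S then xop K e (S - j - 1) else 0) F)
  by_cases h : j + 1 < S
  · have h1 : S - j - 1 = (S - (j + 1) - 1) + 1 := by omega
    rw [if_pos h, if_pos h, if_pos (by omega), if_pos (by omega), h1, xop_trunc]
  · rw [if_neg h, if_neg h]; rfl

theorem XX_idem (e : Fin P × Fin H) :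
    (XX K P H S e).op * (XX K P H S e).op = (TT K P H S).op * (XX K P H S e).op := by
  apply LOp.mul_eq
  intro j F _
  show (if j + 1 < S then xop K e (S - (j + 1) - 1) else 0)
      ((if j < S then xop K e (S - j - 1) else 0) F) =
    (if j + 1 < S then trunc K (Fin P) (Fin H) (S - (j + 1) - 1) else 0)
      ((if j < S then xop K e (S - j - 1) else 0) F)
  by_cases h : j + 1 < S
  · have h1 : S - j - 1 = (S - (j + 1) - 1) + 1 := by omega
    rw [if_pos h, if_pos (by omega), if_pos h, h1, xop_idem]
  · rw [if_neg h, if_neg h]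

theorem gens_comm : ∀ a ∈ gens K P H S, ∀ b ∈ gens K P H S, a * b = b * a := by
  rintro a (rfl | ⟨e, rfl⟩) b (rfl | ⟨e', rfl⟩)
  · rfl
  · exact (XX_TT K P H S e').symm
  · exact XX_TT K P H S e
  · exact XX_comm K P H S e e'

/-- the commutative algebra generated by commuting operators -/
def CAlg {K M : Type} [Field K] [AddCommGroup M] [Module K M] (s : Set (Module.End K M))
    (_ : ∀ a ∈ s, ∀ b ∈ s, a * b = b * a) : Type := Algebra.adjoin K s

section generic

variable {K M : Type} [Field K] [AddCommGroup M] [Module K M] (s : Set (Module.End K M))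
  (hs : ∀ a ∈ s, ∀ b ∈ s, a * b = b * a)

instance : CommRing (CAlg s hs) :=
  { (inferInstance : Ring (Algebra.adjoin K s)) with
    mul_comm := (Algebra.isMulCommutative_adjoin K hs).is_comm.comm }

instance : Algebra K (CAlg s hs) :=
  { (inferInstance : Module K (Algebra.adjoin K s)) with
    algebraMap := (algebraMap K (Algebra.adjoin K s) : K →+* Algebra.adjoin K s)
    commutes' := fun r x => mul_comm _ _
    smul_def' := fun r x => Algebra.smul_def (A := Algebra.adjoin K s) r x }

instance : Module (CAlg s hs) M :=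
  inferInstanceAs (Module (Algebra.adjoin K s) M)

instance : IsScalarTower K (CAlg s hs) M :=
  inferInstanceAs (IsScalarTower K (Algebra.adjoin K s) M)

/-- an element of the generating set -/
def CAlg.of (a : Module.End K M) (ha : a ∈ s) : CAlg s hs := ⟨a, Algebra.subset_adjoin ha⟩

theorem CAlg.of_smul (a : Module.End K M) (ha : a ∈ s) (m : M) : CAlg.of s hs a ha • m = a m := rfl

theorem CAlg.mul_smul' (x y : CAlg s hs) (m : M) : (x * y) • m = x • (y • m) := rfl

theorem CAlg.zero_smul' (m : M) : (0 : CAlg s hs) • m = 0 := rfl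

theorem CAlg.ext {x y : CAlg s hs} (h : ∀ m : M, x • m = y • m) : x = y :=
  Subtype.ext (LinearMap.ext h)

end generic

/-- the operator `t` -/
def tt : CAlg (gens K P H S) (gens_comm K P H S) :=
  CAlg.of _ _ (TT K P H S).op (Set.mem_insert _ _)

/-- the operator `x_e` -/
def xx (e : Fin P × Fin H) : CAlg (gens K P H S) (gens_comm K P H S) :=
  CAlg.of _ _ (XX K P H S e).op (Set.mem_insert_of_mem _ ⟨e, rfl⟩)

theorem tt_smul (f : MM K P H S) : tt K P H S • f = (TT K P H S).op f := rfl

theorem xx_smul (e : Fin P × Fin H) (f : MM K P H S) :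
    xx K P H S e • f = (XX K P H S e).op f := rfl

theorem xx_mul_self (e : Fin P × Fin H) :
    xx K P H S e * xx K P H S e = tt K P H S * xx K P H S e :=
  Subtype.ext (XX_idem K P H S e)

theorem xx_mul_A (a : Fin P) {b b' : Fin H} (hb : b ≠ b') :
    xx K P H S (a, b) * xx K P H S (a, b') = 0 := by
  apply CAlg.ext
  intro f
  rw [CAlg.mul_smul', CAlg.zero_smul', xx_smul, xx_smul]
  apply MM.ext
  intro j
  cases j with
  | zero => rfl
  | succ j =>
    apply Subtype.ext
    rw [LOp.op_succ]
    cases j with
    | zero => rw [LOp.op_zero, Submodule.coe_zero, map_zero]; rfl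
    | succ j =>
      rw [LOp.op_succ]
      show (if j + 1 < S then xop K (a, b) (S - (j + 1) - 1) else 0)
        ((if j < S then xop K (a, b') (S - j - 1) else 0) (f j : VV K P H)) = 0
      by_cases h : j + 1 < S
      · rw [if_pos h, if_pos (by omega), xop_xopA K a hb]
      · rw [if_neg h]; rfl

theorem xx_mul_B {a a' : Fin P} (b : Fin H) (ha : a ≠ a') :
    xx K P H S (a, b) * xx K P H S (a', b) = 0 := by
  apply CAlg.ext
  intro f
  rw [CAlg.mul_smul', CAlg.zero_smul', xx_smul, xx_smul]
  apply MM.ext
  intro j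
  cases j with
  | zero => rfl
  | succ j =>
    apply Subtype.ext
    rw [LOp.op_succ]
    cases j with
    | zero => rw [LOp.op_zero, Submodule.coe_zero, map_zero]; rfl
    | succ j =>
      rw [LOp.op_succ]
      show (if j + 1 < S then xop K (a, b) (S - (j + 1) - 1) else 0)
        ((if j < S then xop K (a', b) (S - j - 1) else 0) (f j : VV K P H)) = 0
      by_cases h : j + 1 < S
      · rw [if_pos h, if_pos (by omega), xop_xopB K b ha]
      · rw [if_neg h]; rfl

theorem MM.sum_apply {ι : Type} (s : Finset ι) (g : ι → MM K P H S) (j : ℕ) :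
    (∑ i ∈ s, g i) j = ∑ i ∈ s, g i j := by
  classical
  induction s using Finset.induction_on with
  | empty => simp
  | insert a s ha ih => rw [Finset.sum_insert ha, Finset.sum_insert ha, MM.add_apply, ih]

theorem sum_xxA (a : Fin P) : ∑ b, xx K P H S (a, b) = tt K P H S := by
  apply CAlg.ext
  intro f
  rw [Finset.sum_smul, tt_smul]
  apply MM.ext
  intro j
  rw [MM.sum_apply]
  cases j with
  | zero => exact Finset.sum_eq_zero fun b _ => rfl
  | succ j =>
    apply Subtype.ext
    rw [Submodule.coe_sum, LOp.op_succ]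
    have e1 : ∀ b : Fin H, (((xx K P H S (a, b) • f) (j + 1) : lev K P H S (j + 1)) : VV K P H) =
        (if j < S then xop K (a, b) (S - j - 1) else 0) (f j : VV K P H) := fun b => rfl
    rw [Finset.sum_congr rfl fun b _ => e1 b]
    show _ = (if j < S then trunc K (Fin P) (Fin H) (S - j - 1) else 0) (f j : VV K P H)
    by_cases h : j < S
    · simp only [if_pos h]
      have hf : (f j : VV K P H) ∈ Co K (Fin P) (Fin H) ((S - j - 1) + 1) := by
        have h1 := (lev_of_le (K := K) (P := P) (H := H) h.le).le (f j).2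
        rwa [show S - j = (S - j - 1) + 1 by omega] at h1
      exact sum_xopA K a hf
    · simp only [if_neg h]
      simp

theorem sum_xxB (b : Fin H) : ∑ a, xx K P H S (a, b) = tt K P H S := by
  apply CAlg.ext
  intro f
  rw [Finset.sum_smul, tt_smul]
  apply MM.ext
  intro j
  rw [MM.sum_apply]
  cases j with
  | zero => exact Finset.sum_eq_zero fun b _ => rfl
  | succ j =>
    apply Subtype.ext
    rw [Submodule.coe_sum, LOp.op_succ]
    have e1 : ∀ a : Fin P, (((xx K P H S (a, b) • f) (j + 1) : lev K P H S (j + 1)) : VV K P H) =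
        (if j < S then xop K (a, b) (S - j - 1) else 0) (f j : VV K P H) := fun a => rfl
    rw [Finset.sum_congr rfl fun a _ => e1 a]
    show _ = (if j < S then trunc K (Fin P) (Fin H) (S - j - 1) else 0) (f j : VV K P H)
    by_cases h : j < S
    · simp only [if_pos h]
      have hf : (f j : VV K P H) ∈ Co K (Fin P) (Fin H) ((S - j - 1) + 1) := by
        have h1 := (lev_of_le (K := K) (P := P) (H := H) h.le).le (f j).2
        rwa [show S - j = (S - j - 1) + 1 by omega] at h1
      exact sum_xopB K b hf
    · simp only [if_neg h]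
      simp

/-- the graded pieces -/
def GG (j : ℕ) : Submodule K (MM K P H S) where
  carrier := {f | ∀ i, i ≠ j → f i = 0}
  add_mem' := by
    intro f g hf hg i hi
    rw [MM.add_apply, hf i hi, hg i hi, add_zero]
  zero_mem' := fun i _ => rfl
  smul_mem' := by
    intro c f hf i hi
    rw [MM.smul_apply, hf i hi, smul_zero]

variable {K P H S}

theorem mem_GG {j : ℕ} {f : MM K P H S} : f ∈ GG K P H S j ↔ ∀ i, i ≠ j → f i = 0 := Iff.rfl

theorem LOp.op_mem (L : LOp K P H S) {j : ℕ} {f : MM K P H S} (hf : f ∈ GG K P H S j) :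
    L.op f ∈ GG K P H S (j + 1) := by
  intro i hi
  cases i with
  | zero => rfl
  | succ i =>
    apply Subtype.ext
    rw [LOp.op_succ, hf i (fun h => hi (by rw [h])), Submodule.coe_zero, map_zero]
    rfl

/-- evaluation of a homogeneous element -/
def evalG (j : ℕ) : GG K P H S j ≃ₗ[K] lev K P H S j where
  toFun f := (f : MM K P H S) j
  map_add' f g := rfl
  map_smul' c f := rfl
  invFun F := ⟨fun i => if h : i = j then h ▸ F else 0, fun i hi => dif_neg hi⟩
  left_inv := by
    rintro ⟨f, hf⟩
    apply Subtype.ext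
    apply MM.ext
    intro i
    show (if h : i = j then h ▸ f j else 0) = f i
    by_cases h : i = j
    · subst h; simp
    · rw [dif_neg h, hf i h]
  right_inv := by
    intro F
    show (if h : j = j then h ▸ F else 0) = F
    simp

instance : FiniteDimensional K (VV K P H) := inferInstance

instance (j : ℕ) : FiniteDimensional K (GG K P H S j) :=
  LinearEquiv.finiteDimensional (evalG (K := K) (P := P) (H := H) (S := S) j).symm

theorem finrank_GG {j : ℕ} (hj : j ≤ S) :
    Module.finrank K (GG K P H S j) = Module.finrank K (Co K (Fin P) (Fin H) (S - j)) := by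
  rw [(evalG (K := K) (P := P) (H := H) (S := S) j).finrank_eq]
  unfold lev
  rw [if_pos hj]

theorem trunc_trunc {s t : ℕ} (hst : s ≤ t) (F : VV K P H) :
    trunc K (Fin P) (Fin H) s (trunc K (Fin P) (Fin H) t F) = trunc K (Fin P) (Fin H) s F := by
  ext σ
  rw [trunc_apply, trunc_apply, trunc_apply]
  by_cases h : σ.card ≤ s
  · rw [if_pos h, if_pos h, if_pos (h.trans hst)]
  · rw [if_neg h, if_neg h]

theorem tt_pow_mem (w : ℕ) {j : ℕ} {f : MM K P H S} (hf : f ∈ GG K P H S j) :
    (tt K P H S) ^ w • f ∈ GG K P H S (j + w) := by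
  induction w with
  | zero => rw [pow_zero, one_smul]; exact hf
  | succ w ih =>
    rw [pow_succ', CAlg.mul_smul', tt_smul]
    exact LOp.op_mem _ ih

theorem tt_pow_apply {w : ℕ} (hw : w ≤ S) {f : MM K P H S} (hf : f ∈ GG K P H S 0) :
    ((((tt K P H S) ^ w • f) w : lev K P H S w) : VV K P H) =
      trunc K (Fin P) (Fin H) (S - w) (f 0 : VV K P H) := by
  induction w with
  | zero =>
    rw [pow_zero, one_smul]
    have h0 : (f 0 : VV K P H) ∈ Co K (Fin P) (Fin H) (S - 0) :=
      (lev_of_le (K := K) (P := P) (H := H) (Nat.zero_le S)).le (f 0).2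
    ext σ
    rw [trunc_apply]
    split_ifs with h
    · rfl
    · exact h0.1 σ (fun h' => h h'.2)
  | succ w ih =>
    rw [pow_succ', CAlg.mul_smul', tt_smul, LOp.op_succ]
    show (if w < S then trunc K (Fin P) (Fin H) (S - w - 1) else 0) _ = _
    rw [if_pos (by omega), ih (by omega), trunc_trunc (by omega)]
    rfl

/-- the rank of `t ^ w` in degree zero is the rank of the truncation. -/
theorem finrank_map_pow {w : ℕ} (hw : w ≤ S) (g : MM K P H S →ₗ[K] MM K P H S)
    (hg : ∀ f, g f = (tt K P H S) ^ w • f) :
    Module.finrank K ((GG K P H S 0).map g) =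
      Module.finrank K ((Co K (Fin P) (Fin H) S).map (trunc K (Fin P) (Fin H) (S - w))) := by
  -- the evaluation at `w`
  let ev : MM K P H S →ₗ[K] VV K P H :=
    { toFun := fun f => (f w : VV K P H)
      map_add' := fun f g => rfl
      map_smul' := fun c f => rfl }
  have hinj : ∀ f ∈ (GG K P H S 0).map g, ev f = 0 → f = 0 := by
    rintro _ ⟨f, hf, rfl⟩ h0
    have hm := tt_pow_mem w hf
    rw [← hg, zero_add] at hm
    apply MM.ext
    intro i
    by_cases hi : i = w
    · subst hi
      exact Subtype.ext h0
    · rw [hm i hi]; rfl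
  have himg : ((GG K P H S 0).map g).map ev =
      (Co K (Fin P) (Fin H) S).map (trunc K (Fin P) (Fin H) (S - w)) := by
    ext F
    constructor
    · rintro ⟨_, ⟨f, hf, rfl⟩, rfl⟩
      refine ⟨(f 0 : VV K P H), ?_, ?_⟩
      · exact (lev_of_le (K := K) (P := P) (H := H) (Nat.zero_le S)).le (f 0).2
      · show _ = ((g f w : lev K P H S w) : VV K P H)
        rw [hg, tt_pow_apply hw hf]
    · rintro ⟨F, hF, rfl⟩
      have hF' : F ∈ lev K P H S 0 :=
        (lev_of_le (K := K) (P := P) (H := H) (Nat.zero_le S)).ge hF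
      let f := ((evalG (K := K) (P := P) (H := H) (S := S) 0).symm ⟨F, hF'⟩)
      have hf0 : (f : MM K P H S) 0 = ⟨F, hF'⟩ :=
        (evalG (K := K) (P := P) (H := H) (S := S) 0).apply_symm_apply ⟨F, hF'⟩
      refine ⟨g f, ⟨f, f.2, rfl⟩, ?_⟩
      show ((g f w : lev K P H S w) : VV K P H) = _
      rw [hg, tt_pow_apply hw f.2, hf0]
  rw [← himg]
  refine (LinearEquiv.finrank_eq (LinearEquiv.ofBijective
    ((ev.domRestrict ((GG K P H S 0).map g)).codRestrict (((GG K P H S 0).map g).map ev)
      fun x => Submodule.mem_map_of_mem x.2) ⟨?_, ?_⟩))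
  · rw [← LinearMap.ker_eq_bot, LinearMap.ker_eq_bot']
    intro x hx
    apply Subtype.ext
    exact hinj x x.2 (congrArg Subtype.val hx)
  · rintro ⟨_, x, hx, rfl⟩
    exact ⟨⟨x, hx⟩, rfl⟩

end

end Pool.Agent.Helper13.Frege
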