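import Pool.Agent.Helper81.FZ.Defs

/-!
The degree-lowering operators on consistent functions on partial matchings.
-/

set_option autoImplicit false

namespace Pool.Agent.Helper13.Frege

open Pool.Agent.Helper81.FZ Finset

open Classical

noncomputable section

variable (K : Type) [Field K] {α β : Type}

/-- restriction to the matchings containing `e`. -/
def xop (e : α × β) (s : ℕ) : (Finset (α × β) → K) →ₗ[K] (Finset (α × β) → K) where
  toFun F := fun σ => if IsM (insert e σ) ∧ σ.card ≤ s then F (insert e σ) else 0
  map_add' F G := by ext σ; by_cases h : IsM (insert e σ) ∧ σ.card ≤ s <;> simp [h]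
  map_smul' c F := by ext σ; by_cases h : IsM (insert e σ) ∧ σ.card ≤ s <;> simp [h]

theorem xop_apply (e : α × β) (s : ℕ) (F : Finset (α × β) → K) (σ : Finset (α × β)) :
    xop K e s F σ = if IsM (insert e σ) ∧ σ.card ≤ s then F (insert e σ) else 0 := rfl

theorem trunc_apply (s : ℕ) (F : Finset (α × β) → K) (σ : Finset (α × β)) :
    trunc K α β s F σ = if σ.card ≤ s then F σ else 0 := rfl

theorem isM_mono {σ τ : Finset (α × β)} (h : IsM σ) (hτ : τ ⊆ σ) : IsM τ :=
  fun e he e' he' hee => h e (hτ he) e' (hτ he') hee

theorem isM_insert {σ : Finset (α × β)} (h : IsM σ) {a : α} {b : β} (ha : FrA σ a)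
    (hb : FrB σ b) : IsM (insert (a, b) σ) := by
  intro e he e' he' hee
  rcases Finset.mem_insert.1 he with rfl | he
  · rcases Finset.mem_insert.1 he' with rfl | he'
    · rfl
    · rcases hee with h1 | h1
      · exact absurd h1.symm (ha e' he')
      · exact absurd h1.symm (hb e' he')
  · rcases Finset.mem_insert.1 he' with rfl | he'
    · rcases hee with h1 | h1
      · exact absurd h1 (ha e he)
      · exact absurd h1 (hb e he)
    · exact h e he e' he' hee

/-- if `insert e σ` is a matching and `e ∉ σ` then both ends of `e` are free. -/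
theorem frA_of_isM_insert {σ : Finset (α × β)} {e : α × β} (h : IsM (insert e σ)) (he : e ∉ σ) :
    FrA σ e.1 := by
  intro e' he' h1
  have := h e' (Finset.mem_insert_of_mem he') e (Finset.mem_insert_self _ _) (Or.inl h1)
  exact he (this ▸ he')

theorem frB_of_isM_insert {σ : Finset (α × β)} {e : α × β} (h : IsM (insert e σ)) (he : e ∉ σ) :
    FrB σ e.2 := by
  intro e' he' h1
  have := h e' (Finset.mem_insert_of_mem he') e (Finset.mem_insert_self _ _) (Or.inr h1)
  exact he (this ▸ he')

theorem not_isM_insertA {σ : Finset (α × β)} {a : α} {b b' : β} (hb : b ≠ b')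
    (h : (a, b') ∈ σ) : ¬ IsM (insert (a, b) σ) := by
  intro hM
  have := hM (a, b) (Finset.mem_insert_self _ _) (a, b') (Finset.mem_insert_of_mem h) (Or.inl rfl)
  exact hb (Prod.ext_iff.1 this).2

theorem not_isM_insertB {σ : Finset (α × β)} {a a' : α} {b : β} (ha : a ≠ a')
    (h : (a', b) ∈ σ) : ¬ IsM (insert (a, b) σ) := by
  intro hM
  have := hM (a, b) (Finset.mem_insert_self _ _) (a', b) (Finset.mem_insert_of_mem h) (Or.inr rfl)
  exact ha (Prod.ext_iff.1 this).1

theorem frA_insert {σ : Finset (α × β)} {a : α} {e : α × β} :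
    FrA (insert e σ) a ↔ e.1 ≠ a ∧ FrA σ a := by
  constructor
  · intro h
    exact ⟨h e (Finset.mem_insert_self _ _), fun e' he' => h e' (Finset.mem_insert_of_mem he')⟩
  · rintro ⟨h1, h2⟩ e' he'
    rcases Finset.mem_insert.1 he' with rfl | he'
    · exact h1
    · exact h2 e' he'

theorem frB_insert {σ : Finset (α × β)} {b : β} {e : α × β} :
    FrB (insert e σ) b ↔ e.2 ≠ b ∧ FrB σ b := by
  constructor
  · intro h
    exact ⟨h e (Finset.mem_insert_self _ _), fun e' he' => h e' (Finset.mem_insert_of_mem he')⟩
  · rintro ⟨h1, h2⟩ e' he'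
    rcases Finset.mem_insert.1 he' with rfl | he'
    · exact h1
    · exact h2 e' he'

theorem not_mem_of_frA {σ : Finset (α × β)} {a : α} {b : β} (h : FrA σ a) : (a, b) ∉ σ :=
  fun hm => h _ hm rfl

theorem not_mem_of_frB {σ : Finset (α × β)} {a : α} {b : β} (h : FrB σ b) : (a, b) ∉ σ :=
  fun hm => h _ hm rfl

variable [Fintype α] [Fintype β]

theorem xop_mem (e : α × β) {s : ℕ} {F : Finset (α × β) → K} (hF : F ∈ Co K α β (s + 1)) :
    xop K e s F ∈ Co K α β s := by
  obtain ⟨a0, b0⟩ := e
  refine ⟨fun σ hσ => ?_, fun σ hσ hc => ⟨fun a ha => ?_, fun b hb => ?_⟩⟩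
  · rw [xop_apply, if_neg]
    rintro ⟨h1, h2⟩
    exact hσ ⟨isM_mono h1 (Finset.subset_insert _ _), h2⟩
  · -- marginal at the pigeon `a`
    by_cases hI : IsM (insert (a0, b0) σ)
    · rw [xop_apply, if_pos ⟨hI, hc.le⟩]
      by_cases he : (a0, b0) ∈ σ
      · rw [Finset.insert_eq_of_mem he]
        have hm := (hF.2 σ hσ (by omega)).1 a ha
        rw [← hm]
        refine Finset.sum_congr rfl fun b hb => ?_
        have hbF : FrB σ b := (Finset.mem_filter.1 hb).2
        have hM : IsM (insert (a, b) σ) := isM_insert hσ ha hbF
        have hcd : (insert (a, b) σ).card ≤ s := by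
          rw [Finset.card_insert_of_notMem (not_mem_of_frA ha)]; omega
        have hin : insert (a0, b0) (insert (a, b) σ) = insert (a, b) σ :=
          Finset.insert_eq_of_mem (Finset.mem_insert_of_mem he)
        rw [xop_apply, hin, if_pos ⟨hM, hcd⟩]
      · have ha0 : FrA σ a0 := frA_of_isM_insert hI he
        have hb0 : FrB σ b0 := frB_of_isM_insert hI he
        have hc' : (insert (a0, b0) σ).card < s + 1 := by
          rw [Finset.card_insert_of_notMem he]; omega
        by_cases haa : a = a0
        · subst haa
          rw [Finset.sum_eq_single b0]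
          · have hcd : (insert (a, b0) σ).card ≤ s := by
              rw [Finset.card_insert_of_notMem he]; omega
            rw [xop_apply, Finset.insert_eq_of_mem (Finset.mem_insert_self _ _),
              if_pos ⟨hI, hcd⟩]
          · intro b hb hbb
            rw [xop_apply, if_neg]
            rintro ⟨h1, _⟩
            exact not_isM_insertA (Ne.symm hbb) (Finset.mem_insert_self _ _) h1
          · intro h
            exact absurd (Finset.mem_filter.2 ⟨Finset.mem_univ _, hb0⟩) h
        · have hm := (hF.2 _ hI hc').1 a (frA_insert.2 ⟨fun h => haa h.symm, ha⟩)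
          rw [← hm]
          have hsub : (univ.filter fun b => FrB (insert (a0, b0) σ) b) ⊆
              univ.filter fun b => FrB σ b := by
            intro b hb
            exact Finset.mem_filter.2 ⟨Finset.mem_univ _, (frB_insert.1 (Finset.mem_filter.1 hb).2).2⟩
          rw [← Finset.sum_subset hsub]
          · refine Finset.sum_congr rfl fun b hb => ?_
            have hb' := frB_insert.1 (Finset.mem_filter.1 hb).2
            have hM : IsM (insert (a0, b0) (insert (a, b) σ)) := by
              rw [Finset.insert_comm]
              exact isM_insert hI (frA_insert.2 ⟨fun h => haa h.symm, ha⟩)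
                (frB_insert.2 hb')
            have hcd : (insert (a, b) σ).card ≤ s := by
              rw [Finset.card_insert_of_notMem (not_mem_of_frA ha)]; omega
            rw [xop_apply, if_pos ⟨hM, hcd⟩, Finset.insert_comm]
          · intro b hb hb2
            rw [xop_apply, if_neg]
            rintro ⟨h1, _⟩
            apply hb2
            refine Finset.mem_filter.2 ⟨Finset.mem_univ _, frB_insert.2 ⟨?_,
              (Finset.mem_filter.1 hb).2⟩⟩
            rintro rfl
            exact not_isM_insertB (fun h => haa h.symm) (Finset.mem_insert_self _ _) h1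
    · rw [xop_apply, if_neg (fun h => hI h.1)]
      refine Finset.sum_eq_zero fun b hb => ?_
      rw [xop_apply, if_neg]
      rintro ⟨h1, _⟩
      exact hI (isM_mono h1 (Finset.insert_subset_insert _ (Finset.subset_insert _ _)))
  · -- marginal at the hole `b`
    by_cases hI : IsM (insert (a0, b0) σ)
    · rw [xop_apply, if_pos ⟨hI, hc.le⟩]
      by_cases he : (a0, b0) ∈ σ
      · rw [Finset.insert_eq_of_mem he]
        have hm := (hF.2 σ hσ (by omega)).2 b hb
        rw [← hm]
        refine Finset.sum_congr rfl fun a ha => ?_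
        have haF : FrA σ a := (Finset.mem_filter.1 ha).2
        have hM : IsM (insert (a, b) σ) := isM_insert hσ haF hb
        have hcd : (insert (a, b) σ).card ≤ s := by
          rw [Finset.card_insert_of_notMem (not_mem_of_frA haF)]; omega
        have hin : insert (a0, b0) (insert (a, b) σ) = insert (a, b) σ :=
          Finset.insert_eq_of_mem (Finset.mem_insert_of_mem he)
        rw [xop_apply, hin, if_pos ⟨hM, hcd⟩]
      · have ha0 : FrA σ a0 := frA_of_isM_insert hI he
        have hb0 : FrB σ b0 := frB_of_isM_insert hI he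
        have hc' : (insert (a0, b0) σ).card < s + 1 := by
          rw [Finset.card_insert_of_notMem he]; omega
        by_cases hbb : b = b0
        · subst hbb
          rw [Finset.sum_eq_single a0]
          · have hcd : (insert (a0, b) σ).card ≤ s := by
              rw [Finset.card_insert_of_notMem he]; omega
            rw [xop_apply, Finset.insert_eq_of_mem (Finset.mem_insert_self _ _),
              if_pos ⟨hI, hcd⟩]
          · intro a ha haa
            rw [xop_apply, if_neg]
            rintro ⟨h1, _⟩
            exact not_isM_insertB (Ne.symm haa) (Finset.mem_insert_self _ _) h1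
          · intro h
            exact absurd (Finset.mem_filter.2 ⟨Finset.mem_univ _, ha0⟩) h
        · have hm := (hF.2 _ hI hc').2 b (frB_insert.2 ⟨fun h => hbb h.symm, hb⟩)
          rw [← hm]
          have hsub : (univ.filter fun a => FrA (insert (a0, b0) σ) a) ⊆
              univ.filter fun a => FrA σ a := by
            intro a ha
            exact Finset.mem_filter.2 ⟨Finset.mem_univ _, (frA_insert.1 (Finset.mem_filter.1 ha).2).2⟩
          rw [← Finset.sum_subset hsub]
          · refine Finset.sum_congr rfl fun a ha => ?_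
            have ha' := frA_insert.1 (Finset.mem_filter.1 ha).2
            have hM : IsM (insert (a0, b0) (insert (a, b) σ)) := by
              rw [Finset.insert_comm]
              exact isM_insert hI (frA_insert.2 ha')
                (frB_insert.2 ⟨fun h => hbb h.symm, hb⟩)
            have hcd : (insert (a, b) σ).card ≤ s := by
              rw [Finset.card_insert_of_notMem (not_mem_of_frB hb)]; omega
            rw [xop_apply, if_pos ⟨hM, hcd⟩, Finset.insert_comm]
          · intro a ha ha2
            rw [xop_apply, if_neg]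
            rintro ⟨h1, _⟩
            apply ha2
            refine Finset.mem_filter.2 ⟨Finset.mem_univ _, frA_insert.2 ⟨?_,
              (Finset.mem_filter.1 ha).2⟩⟩
            rintro rfl
            exact not_isM_insertA (fun h => hbb h.symm) (Finset.mem_insert_self _ _) h1
    · rw [xop_apply, if_neg (fun h => hI h.1)]
      refine Finset.sum_eq_zero fun a ha => ?_
      rw [xop_apply, if_neg]
      rintro ⟨h1, _⟩
      exact hI (isM_mono h1 (Finset.insert_subset_insert _ (Finset.subset_insert _ _)))

theorem trunc_mem' {s t : ℕ} (hts : t ≤ s) {F : Finset (α × β) → K} (hF : F ∈ Co K α β s) :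
    trunc K α β t F ∈ Co K α β t := by
  refine ⟨fun σ hσ => ?_, fun σ hσ hc => ⟨fun a ha => ?_, fun b hb => ?_⟩⟩
  · rw [trunc_apply]
    split_ifs with h
    · exact hF.1 σ (fun h' => hσ ⟨h'.1, h⟩)
    · rfl
  · rw [trunc_apply, if_pos hc.le, ← (hF.2 σ hσ (by omega)).1 a ha]
    refine Finset.sum_congr rfl fun b _ => ?_
    rw [trunc_apply, if_pos]
    exact (Finset.card_insert_le _ _).trans hc
  · rw [trunc_apply, if_pos hc.le, ← (hF.2 σ hσ (by omega)).2 b hb]
    refine Finset.sum_congr rfl fun b _ => ?_
    rw [trunc_apply, if_pos]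
    exact (Finset.card_insert_le _ _).trans hc

omit [Fintype α] [Fintype β]

theorem xop_xop_comm (e e' : α × β) (s : ℕ) (F : Finset (α × β) → K) :
    xop K e s (xop K e' (s + 1) F) = xop K e' s (xop K e (s + 1) F) := by
  ext σ
  simp only [xop_apply]
  rw [Finset.insert_comm e' e σ]
  by_cases h1 : IsM (insert e (insert e' σ))
  · have h2 : IsM (insert e σ) := isM_mono h1 (Finset.insert_subset_insert _ (Finset.subset_insert _ _))
    have h3 : IsM (insert e' σ) := isM_mono h1 (Finset.subset_insert _ _)
    by_cases hc : σ.card ≤ s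
    · have c1 : (insert e σ).card ≤ s + 1 := (Finset.card_insert_le _ _).trans (by omega)
      have c2 : (insert e' σ).card ≤ s + 1 := (Finset.card_insert_le _ _).trans (by omega)
      simp [h1, h2, h3, hc, c1, c2]
    · simp [hc]
  · simp [h1]

theorem xop_trunc (e : α × β) (s : ℕ) (F : Finset (α × β) → K) :
    xop K e s (trunc K α β (s + 1) F) = trunc K α β s (xop K e (s + 1) F) := by
  ext σ
  simp only [xop_apply, trunc_apply]
  by_cases hc : σ.card ≤ s
  · have c1 : (insert e σ).card ≤ s + 1 := (Finset.card_insert_le _ _).trans (by omega)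
    have c2 : σ.card ≤ s + 1 := by omega
    simp [hc, c1, c2]
  · simp [hc]

theorem xop_idem (e : α × β) (s : ℕ) (F : Finset (α × β) → K) :
    xop K e s (xop K e (s + 1) F) = trunc K α β s (xop K e (s + 1) F) := by
  ext σ
  simp only [xop_apply, trunc_apply]
  by_cases hc : σ.card ≤ s
  · have c1 : (insert e σ).card ≤ s + 1 := (Finset.card_insert_le _ _).trans (by omega)
    have c2 : σ.card ≤ s + 1 := by omega
    by_cases hI : IsM (insert e σ) <;> simp [hc, c1, c2, hI]
  · simp [hc]

theorem xop_xopA (a : α) {b b' : β} (hb : b ≠ b') (s s' : ℕ) (F : Finset (α × β) → K) :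
    xop K (a, b) s (xop K (a, b') s' F) = 0 := by
  ext σ
  simp only [xop_apply, Pi.zero_apply]
  rw [ite_eq_right_iff]
  rintro ⟨_, _⟩
  rw [if_neg]
  rintro ⟨h1, _⟩
  exact not_isM_insertA (Ne.symm hb) (Finset.mem_insert_self _ _) h1

theorem xop_xopB {a a' : α} (b : β) (ha : a ≠ a') (s s' : ℕ) (F : Finset (α × β) → K) :
    xop K (a, b) s (xop K (a', b) s' F) = 0 := by
  ext σ
  simp only [xop_apply, Pi.zero_apply]
  rw [ite_eq_right_iff]
  rintro ⟨_, _⟩
  rw [if_neg]
  rintro ⟨h1, _⟩
  exact not_isM_insertB (Ne.symm ha) (Finset.mem_insert_self _ _) h1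

variable [Fintype α] [Fintype β]

/-- the sum over the holes of the operators of a pigeon is the truncation. -/
theorem sum_xopA (a : α) {s : ℕ} {F : Finset (α × β) → K} (hF : F ∈ Co K α β (s + 1)) :
    ∑ b, xop K (a, b) s F = trunc K α β s F := by
  ext σ
  rw [Finset.sum_apply, trunc_apply]
  simp only [xop_apply]
  by_cases hc : σ.card ≤ s
  · rw [if_pos hc]
    by_cases hσ : IsM σ
    · by_cases ha : FrA σ a
      · rw [← (hF.2 σ hσ (by omega)).1 a ha, Finset.sum_filter]
        refine Finset.sum_congr rfl fun b _ => ?_
        by_cases hb : FrB σ b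
        · rw [if_pos ⟨isM_insert hσ ha hb, hc⟩, if_pos hb]
        · rw [if_neg hb, if_neg]
          rintro ⟨h1, _⟩
          exact hb (frB_of_isM_insert h1 (not_mem_of_frA ha))
      · unfold FrA at ha
        push Not at ha
        obtain ⟨⟨a', b1⟩, he, haa⟩ := ha
        simp only at haa
        subst haa
        rw [Finset.sum_eq_single b1]
        · rw [Finset.insert_eq_of_mem he, if_pos ⟨hσ, hc⟩]
        · intro b _ hb
          rw [if_neg]
          rintro ⟨h1, _⟩
          exact not_isM_insertA hb he h1
        · intro h; exact absurd (Finset.mem_univ _) h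
    · rw [hF.1 σ (fun h => hσ h.1)]
      refine Finset.sum_eq_zero fun b _ => ?_
      rw [if_neg]
      rintro ⟨h1, _⟩
      exact hσ (isM_mono h1 (Finset.subset_insert _ _))
  · simp [hc]

theorem sum_xopB (b : β) {s : ℕ} {F : Finset (α × β) → K} (hF : F ∈ Co K α β (s + 1)) :
    ∑ a, xop K (a, b) s F = trunc K α β s F := by
  ext σ
  rw [Finset.sum_apply, trunc_apply]
  simp only [xop_apply]
  by_cases hc : σ.card ≤ s
  · rw [if_pos hc]
    by_cases hσ : IsM σ
    · by_cases hb : FrB σ b
      · rw [← (hF.2 σ hσ (by omega)).2 b hb, Finset.sum_filter]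
        refine Finset.sum_congr rfl fun a _ => ?_
        by_cases ha : FrA σ a
        · rw [if_pos ⟨isM_insert hσ ha hb, hc⟩, if_pos ha]
        · rw [if_neg ha, if_neg]
          rintro ⟨h1, _⟩
          exact ha (frA_of_isM_insert h1 (not_mem_of_frB hb))
      · unfold FrB at hb
        push Not at hb
        obtain ⟨⟨a1, b'⟩, he, hbb⟩ := hb
        simp only at hbb
        subst hbb
        rw [Finset.sum_eq_single a1]
        · rw [Finset.insert_eq_of_mem he, if_pos ⟨hσ, hc⟩]
        · intro a _ ha
          rw [if_neg]
          rintro ⟨h1, _⟩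
          exact not_isM_insertB ha he h1
        · intro h; exact absurd (Finset.mem_univ _) h
    · rw [hF.1 σ (fun h => hσ h.1)]
      refine Finset.sum_eq_zero fun b _ => ?_
      rw [if_neg]
      rintro ⟨h1, _⟩
      exact hσ (isM_mono h1 (Finset.subset_insert _ _))
  · simp [hc]

end

end Pool.Agent.Helper13.Frege
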