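import Pool.Agent.Helper13.Frege.Inst

/-!
The window module of the CNF `cnf P H n`.
-/

set_option autoImplicit false

namespace Pool.Agent.Helper13.Frege

open Pool.Agent.Helper81.FZ Pool.Agent.Helper21.AC0p Pool.Agent.Frege Finset

noncomputable section

variable (K : Type) [Field K] (P H S : ℕ)

/-- the operator of a variable -/
def xv (i : ℕ) : CAlg (gens K P H S) (gens_comm K P H S) :=
  if h : i < P * H then
    xx K P H S (⟨i / H, Nat.div_lt_of_lt_mul (by rwa [mul_comm] at h)⟩,
      ⟨i % H, Nat.mod_lt _ (Nat.pos_of_ne_zero (by rintro rfl; simp at h))⟩)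
  else 0

theorem xv_vr (i : Fin P) (k : Fin H) : xv K P H S (vr H i k) = xx K P H S (i, k) := by
  have h := vr_lt i.2 k.2
  unfold xv
  rw [dif_pos h]
  have hH : 0 < H := Nat.zero_lt_of_lt k.2
  congr 1
  apply Prod.ext
  · apply Fin.ext
    show (vr H i k) / H = i
    unfold vr
    rw [mul_comm, Nat.mul_add_div hH, Nat.div_eq_of_lt k.2, add_zero]
  · apply Fin.ext
    show (vr H i k) % H = k
    unfold vr
    rw [mul_comm, Nat.mul_add_mod, Nat.mod_eq_of_lt k.2]

theorem xv_mem (i j : ℕ) {Q : MM K P H S} (hQ : Q ∈ GG K P H S j) :
    xv K P H S i • Q ∈ GG K P H S (j + 1) := by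
  unfold xv
  split_ifs with h
  · exact LOp.op_mem _ hQ
  · rw [CAlg.zero_smul']; exact Submodule.zero_mem _

theorem xv_idem (i : ℕ) : xv K P H S i * xv K P H S i = tt K P H S * xv K P H S i := by
  unfold xv
  split_ifs with h
  · exact xx_mul_self K P H S _
  · rw [mul_zero, mul_zero]

theorem list_sum_range {R : Type} [AddCommMonoid R] (n : ℕ) (f : ℕ → R) :
    ((List.range n).map f).sum = ∑ k : Fin n, f k :=
  (show ((List.range n).map f).sum = ∑ k ∈ Finset.range n, f k from rfl).trans
    (Fin.sum_univ_eq_sum_range f n).symm

theorem two_clause {R : Type} [CommRing R] (t x x' : R) (h : x * x' = 0) :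
    t ^ 2 = t * (t - x) + (x * (t - x') + 0) := by
  linear_combination h

/-- the window module. -/
def win (n : ℕ) : Win (cnf P H n) 1 K (CAlg (gens K P H S) (gens_comm K P H S))
    (MM K P H S) where
  G := GG K P H S
  t := tt K P H S
  x := xv K P H S
  t_mem := fun j Q hQ => LOp.op_mem _ hQ
  x_mem := fun i j Q hQ => xv_mem K P H S i j hQ
  idem := xv_idem K P H S
  fin := fun j => inferInstance
  clause := by
    intro C hC
    rcases List.mem_append.1 hC with hC | hC
    · rcases mem_bphp.1 hC with ⟨i, hi, rfl⟩ | ⟨k, hk, rfl⟩ | ⟨i, hi, k, hk, k', hk', rfl⟩ |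
        ⟨k, hk, i, hi, i', hi', rfl⟩
      · refine ⟨0, Nat.zero_le _, fun _ => 1, fun l _ j Q hQ => by rw [one_smul]; exact hQ, ?_⟩
        unfold pigeonAx
        rw [List.map_map, zero_add, pow_one]
        have e : ((fun l : Lit => (1 : CAlg (gens K P H S) (gens_comm K P H S)) *
            if l.2 = true then xv K P H S l.1 else tt K P H S - xv K P H S l.1) ∘
            fun k => (vr H i k, true)) = fun k => xv K P H S (vr H i k) := by
          funext k; simp
        rw [e, list_sum_range, ← sum_xxA K P H S ⟨i, hi⟩]
        exact Finset.sum_congr rfl fun k _ => (xv_vr K P H S ⟨i, hi⟩ k).symm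
      · refine ⟨0, Nat.zero_le _, fun _ => 1, fun l _ j Q hQ => by rw [one_smul]; exact hQ, ?_⟩
        unfold holeAx
        rw [List.map_map, zero_add, pow_one]
        have e : ((fun l : Lit => (1 : CAlg (gens K P H S) (gens_comm K P H S)) *
            if l.2 = true then xv K P H S l.1 else tt K P H S - xv K P H S l.1) ∘
            fun i => (vr H i k, true)) = fun i => xv K P H S (vr H i k) := by
          funext k; simp
        rw [e, list_sum_range, ← sum_xxB K P H S ⟨k, hk⟩]
        exact Finset.sum_congr rfl fun i _ => (xv_vr K P H S i ⟨k, hk⟩).symm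
      · have hne : vr H i k' ≠ vr H i k := by unfold vr; omega
        refine ⟨1, le_rfl, fun l => if l.1 = vr H i k then tt K P H S else
          xv K P H S (vr H i k), ?_, ?_⟩
        · intro l _ j Q hQ
          show (if l.1 = vr H i k then tt K P H S else xv K P H S (vr H i k)) • Q ∈ _
          split_ifs
          · exact LOp.op_mem _ hQ
          · exact xv_mem K P H S _ j hQ
        · unfold funAx
          simp only [List.map_cons, List.map_nil, List.sum_cons, List.sum_nil, if_true,
            if_neg hne, Bool.false_eq_true, if_false]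
          apply two_clause
          have e1 := xv_vr K P H S ⟨i, hi⟩ ⟨k, hk⟩
          have e2 := xv_vr K P H S ⟨i, hi⟩ ⟨k', hk'.trans hk⟩
          simp only at e1 e2
          rw [e1, e2]
          exact xx_mul_A K P H S _ (fun h => by
            have := congrArg Fin.val h
            simp only at this
            omega)
      · have hne : vr H i' k ≠ vr H i k := by
          unfold vr
          intro h
          have h2 : i' * H = i * H := by omega
          have hH : 0 < H := Nat.zero_lt_of_lt hk
          exact (Nat.ne_of_lt hi') (Nat.eq_of_mul_eq_mul_right hH h2)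
        refine ⟨1, le_rfl, fun l => if l.1 = vr H i k then tt K P H S else
          xv K P H S (vr H i k), ?_, ?_⟩
        · intro l _ j Q hQ
          show (if l.1 = vr H i k then tt K P H S else xv K P H S (vr H i k)) • Q ∈ _
          split_ifs
          · exact LOp.op_mem _ hQ
          · exact xv_mem K P H S _ j hQ
        · unfold injAx
          simp only [List.map_cons, List.map_nil, List.sum_cons, List.sum_nil, if_true,
            if_neg hne, Bool.false_eq_true, if_false]
          apply two_clause
          have e1 := xv_vr K P H S ⟨i, hi⟩ ⟨k, hk⟩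
          have e2 := xv_vr K P H S ⟨i', hi'.trans hi⟩ ⟨k, hk⟩
          simp only at e1 e2
          rw [e1, e2]
          exact xx_mul_B K P H S _ (fun h => by
            have := congrArg Fin.val h
            simp only at this
            omega)
    · obtain ⟨j, hj, rfl⟩ := mem_taut.1 hC
      refine ⟨0, Nat.zero_le _, fun _ => 1, fun l _ j Q hQ => by rw [one_smul]; exact hQ, ?_⟩
      simp

end

end Pool.Agent.Helper13.Frege
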